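import Pool.Agent.V11292.G.Main

/-!
# Every number in `(0, 1]` is a sum of two numbers with partial quotients tending to infinity
-/

set_option autoImplicit false

namespace Pool.Agent.V11292.G

open Filter Set

/-- The relation at an even stage. -/
def Ep (R φ x : ℝ) : Prop :=
  ∃ w z : ℝ, G w ∧ G z ∧ R * w = x / (1 + φ * x) - z / (1 + φ * z)

/-- The relation at an odd stage. -/
def Em (R φ x : ℝ) : Prop :=
  ∃ w z : ℝ, G w ∧ G z ∧ R * w = z / (1 + φ * z) - x / (1 + φ * x)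

lemma Ep_of_Em {R φ x : ℝ} {b : ℕ} (hb : 1 ≤ b) (hφ : 0 ≤ φ) (hx : 0 ≤ x)
    (h : Em (R * (b + φ) ^ 2) (1 / (b + φ)) x) : Ep R φ (1 / (b + x)) := by
  obtain ⟨w, z, hw, hz, h1⟩ := h
  refine ⟨w, 1 / (b + z), hw, G_cons hb hz, ?_⟩
  rw [u_cons hφ hb hx, u_cons hφ hb hz.1.1.le]
  have hb' : (1 : ℝ) ≤ b := by exact_mod_cast hb
  have h2 : (b : ℝ) + φ ≠ 0 := by positivity
  have h3 : R * w = 1 / (b + φ) ^ 2 * (R * (b + φ) ^ 2 * w) := by
    field_simp
  rw [h3, h1]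
  ring

lemma Em_of_Ep {R φ x : ℝ} {b : ℕ} (hb : 1 ≤ b) (hφ : 0 ≤ φ) (hx : 0 ≤ x)
    (h : Ep (R * (b + φ) ^ 2) (1 / (b + φ)) x) : Em R φ (1 / (b + x)) := by
  obtain ⟨w, z, hw, hz, h1⟩ := h
  refine ⟨w, 1 / (b + z), hw, G_cons hb hz, ?_⟩
  rw [u_cons hφ hb hx, u_cons hφ hb hz.1.1.le]
  have hb' : (1 : ℝ) ≤ b := by exact_mod_cast hb
  have h2 : (b : ℝ) + φ ≠ 0 := by positivity
  have h3 : R * w = 1 / (b + φ) ^ 2 * (R * (b + φ) ^ 2 * w) := by
    field_simp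
  rw [h3, h1]
  ring

/-! ### Irrational numbers -/

lemma gauss {x : ℝ} (hx0 : 0 < x) (hx1 : x < 1) (hF : x ∉ F) :
    ∃ (b : ℕ) (y : ℝ), 1 ≤ b ∧ 0 < y ∧ y < 1 ∧ y ∉ F ∧ x = 1 / (b + y) := by
  obtain ⟨b, hb⟩ : ∃ b : ℕ, b = ⌊1 / x⌋₊ := ⟨_, rfl⟩
  have h1 : (b : ℝ) ≤ 1 / x := by
    rw [hb]
    exact Nat.floor_le (by positivity)
  have h2 : 1 / x < b + 1 := by
    rw [hb]
    exact Nat.lt_floor_add_one _
  have h3 : 1 < 1 / x := by
    rw [lt_div_iff₀ hx0]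
    linarith
  have h4 : (0 : ℝ) < b := by linarith
  have h5 : 0 < b := by exact_mod_cast h4
  have hyF : 1 / x - b ∉ F := by
    intro h
    apply hF
    have h6 : x = 1 / ((1 / x - b) + b) := by
      rw [sub_add_cancel, one_div_one_div]
    rw [h6]
    exact F.div_mem F.one_mem (F.add_mem h (nat_mem_F b))
  refine ⟨b, 1 / x - b, h5, ?_, by linarith, hyF, ?_⟩
  · have h6 : 0 ≤ 1 / x - b := by linarith
    rcases h6.lt_or_eq with h7 | h7
    · exact h7
    · exfalso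
      apply hyF
      rw [← h7]
      exact F.zero_mem
  · rw [add_sub_cancel, one_div_one_div]

lemma Ep_irr {R φ x : ℝ} (hR : 16 ≤ R) (hRF : R ∈ F) (hφ0 : 0 ≤ φ) (hφ1 : φ ≤ 1) (hφF : φ ∈ F)
    (hx0 : 0 < x) (hx1 : x < 1) (hF : x ∉ F) : Ep R φ x := by
  obtain ⟨b, y, hb, hy0, hy1, hyF, hxy⟩ := gauss hx0 hx1 hF
  have hb' : (1 : ℝ) ≤ b := by exact_mod_cast hb
  obtain ⟨K, hK⟩ : ∃ K : ℝ, K = ((b + 1 : ℕ) : ℝ) + φ := ⟨_, rfl⟩
  have hK2 : 2 ≤ K := by
    rw [hK]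
    push_cast
    linarith
  have hKF : K ∈ F := by
    rw [hK]
    exact F.add_mem (nat_mem_F _) hφF
  have hux : x / (1 + φ * x) = 1 / (b + y + φ) := by
    rw [hxy]
    have h1 : (b : ℝ) + y ≠ 0 := by positivity
    field_simp
  obtain ⟨C, hC⟩ : ∃ C : ℝ, C = x / (1 + φ * x) - 1 / K := ⟨_, rfl⟩
  have hC2 : C = (1 - y) / ((b + y + φ) * K) := by
    have h1 : (b : ℝ) + y + φ ≠ 0 := by positivity
    have h2 : K ≠ 0 := by positivity
    rw [hC, hux, div_sub_div _ _ h1 h2, hK]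
    push_cast
    ring
  have hC0 : 0 < C := by
    rw [hC2]
    have : 0 < 1 - y := by linarith
    positivity
  have hCK : C ≤ 1 / K := by
    rw [hC2, div_le_div_iff₀ (by positivity) (by positivity)]
    have h1 : (1 - y) * K ≤ 1 * K := mul_le_mul_of_nonneg_right (by linarith) (by linarith)
    have h2 : 1 * K ≤ (b + y + φ) * K := mul_le_mul_of_nonneg_right (by linarith) (by linarith)
    linarith
  have hK1 : 1 / K ≤ 1 := by
    rw [div_le_one (by linarith)]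
    linarith
  have hCF : C ∉ F := by
    intro h
    apply hF
    have h1 : x / (1 + φ * x) ∈ F := by
      have h2 : x / (1 + φ * x) = C + 1 / K := by rw [hC]; ring
      rw [h2]
      exact F.add_mem h (F.div_mem F.one_mem hKF)
    have h3 : x = x / (1 + φ * x) / (1 - φ * (x / (1 + φ * x))) := by
      have h4 : 1 + φ * x ≠ 0 := by positivity
      have h5 : 1 - φ * (x / (1 + φ * x)) = 1 / (1 + φ * x) := by
        field_simp
        ring
      rw [h5]
      field_simp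
    rw [h3]
    exact F.div_mem h1 (F.sub_mem F.one_mem (F.mul_mem hφF h1))
  have hval : Valid 16 ⟨R, 0, 1 / K ^ 2, 1 / K, C⟩ := by
    refine ⟨by show 0 < R; linarith, by show 0 < 1 / K ^ 2; positivity, le_refl _, zero_le_one,
      by show 0 ≤ 1 / K; positivity, hK1, ?_, Or.inl ⟨hC0, ?_⟩, hRF, F.zero_mem,
      F.div_mem F.one_mem (F.pow_mem hKF 2), F.div_mem F.one_mem hKF, hCF⟩
    · show 16 * C ^ 2 ≤ R * (1 / K ^ 2)
      have h1 : C ^ 2 ≤ (1 / K) ^ 2 := pow_le_pow_left₀ hC0.le hCK 2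
      rw [one_div_pow] at h1
      exact mul_le_mul hR h1 (by positivity) (by linarith)
    · show C * 16 ≤ 4 * R
      linarith
  obtain ⟨w, z, hw, hz, h1⟩ := solve 16 (le_refl _) _ hval
  refine ⟨w, 1 / (((b + 1 : ℕ) : ℝ) + z), hw, G_cons (by omega) hz, ?_⟩
  rw [u_cons hφ0 (by omega) hz.1.1.le, ← hK]
  unfold Rel at h1
  simp only [zero_mul, add_zero, div_one] at h1
  linear_combination h1 + hC

lemma Ep_irr' (n : ℕ) : ∀ {R φ x : ℝ}, 16 ≤ R * 4 ^ n → 0 < R → R ∈ F → 0 ≤ φ → φ ≤ 1 → φ ∈ F →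
    0 < x → x < 1 → x ∉ F → Ep R φ x := by
  induction n with
  | zero =>
    intro R φ x hR hR0 hRF hφ0 hφ1 hφF hx0 hx1 hF
    rw [pow_zero, mul_one] at hR
    exact Ep_irr hR hRF hφ0 hφ1 hφF hx0 hx1 hF
  | succ n ih =>
    intro R φ x hR hR0 hRF hφ0 hφ1 hφF hx0 hx1 hF
    obtain ⟨b, y, hb, hy0, hy1, hyF, hxy⟩ := gauss hx0 hx1 hF
    obtain ⟨c, z, hc, hz0, hz1, hzF, hyz⟩ := gauss hy0 hy1 hyF
    have hb' : (1 : ℝ) ≤ b := by exact_mod_cast hb
    have hc' : (1 : ℝ) ≤ c := by exact_mod_cast hc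
    have hbF : (b : ℝ) + φ ∈ F := F.add_mem (nat_mem_F b) hφF
    have hφ'F : 1 / ((b : ℝ) + φ) ∈ F := F.div_mem F.one_mem hbF
    have hcF : (c : ℝ) + 1 / (b + φ) ∈ F := F.add_mem (nat_mem_F c) hφ'F
    have h1 := inv_mem hb hφ0
    have h2 := inv_mem hc h1.1
    rw [hxy]
    apply Ep_of_Em hb hφ0 hy0.le
    rw [hyz]
    apply Em_of_Ep hc h1.1 hz0.le
    apply ih _ _ _ h2.1 h2.2 (F.div_mem F.one_mem hcF) hz0 hz1 hzF
    · have h3 : R * ((b : ℝ) + φ) ^ 2 * (c + 1 / (b + φ)) ^ 2 =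
          R * (c * (b + φ) + 1) ^ 2 := by
        have h4 : (b : ℝ) + φ ≠ 0 := by positivity
        field_simp
      rw [h3]
      have h4 : (1 : ℝ) ≤ c * (b + φ) := by
        have h5 : (1 : ℝ) * 1 ≤ c * (b + φ) := mul_le_mul hc' (by linarith) (by norm_num)
          (by linarith)
        linarith
      have h6 : (2 : ℝ) ^ 2 ≤ (c * (b + φ) + 1) ^ 2 :=
        pow_le_pow_left₀ (by norm_num) (by linarith) 2
      have h7 : R * 2 ^ 2 ≤ R * (c * (b + φ) + 1) ^ 2 := mul_le_mul_of_nonneg_left h6 hR0.le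
      calc (16 : ℝ) ≤ R * 4 ^ (n + 1) := hR
        _ = R * 2 ^ 2 * 4 ^ n := by ring
        _ ≤ R * (c * (b + φ) + 1) ^ 2 * 4 ^ n := mul_le_mul_of_nonneg_right h7 (by positivity)
    · positivity
    · exact F.mul_mem (F.mul_mem hRF (F.pow_mem hbF 2)) (F.pow_mem hcF 2)

/-! ### Rational numbers -/

lemma scale (N : ℕ) (hN : 1 ≤ N) : ∃ w z : ℝ, G w ∧ G z ∧ w = N * z := by
  have hN' : (1 : ℝ) ≤ N := by exact_mod_cast hN
  have hN0 : (N : ℝ) ≠ 0 := by positivity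
  let l : ℕ → ℕ := fun i => N * (i + 1)
  have hl1 : ∀ i, 1 ≤ l i := fun i => Nat.mul_pos hN (Nat.succ_pos i)
  have hlt : Tendsto l atTop atTop := by
    apply tendsto_atTop_mono (f := fun i : ℕ => i) _ tendsto_id
    intro i
    show i ≤ N * (i + 1)
    calc i ≤ i + 1 := Nat.le_succ i
      _ ≤ N * (i + 1) := Nat.le_mul_of_pos_left _ hN
  -- the sequence of the complete quotients of `w`
  have hfin : ∀ M : ℕ, ∀ m : ℕ, ∃ x : ℕ → ℝ × ℝ, (∀ i, x i ∈ Icc (0 : ℝ × ℝ) 1) ∧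
      (∀ i < M, (x i).1 * (l (m + i) + (x (i + 1)).1) = 1 ∧
        (x i).2 * (l (m + i) + (x (i + 1)).2) = 1) ∧ x 0 ∈ (univ : Set (ℝ × ℝ)) := by
    intro M
    induction M with
    | zero =>
      intro m
      refine ⟨fun _ => 0, fun _ => ⟨le_refl _, zero_le_one⟩, ?_, mem_univ _⟩
      intro i hi
      exact absurd hi (by omega)
    | succ M ih =>
      intro m
      obtain ⟨x', h1, h2, -⟩ := ih (m + 1)
      have hp1 : 0 ≤ (x' 0).1 := (h1 0).1.1
      have hp2 : 0 ≤ (x' 0).2 := (h1 0).1.2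
      refine ⟨fun i => Nat.casesOn i (1 / ((l m : ℝ) + (x' 0).1), 1 / ((l m : ℝ) + (x' 0).2))
        (fun j => x' j), ?_, ?_, mem_univ _⟩
      · intro i
        cases i with
        | zero =>
          have h5 := inv_mem (hl1 m) hp1
          have h6 := inv_mem (hl1 m) hp2
          exact ⟨⟨h5.1, h6.1⟩, ⟨h5.2, h6.2⟩⟩
        | succ j => exact h1 j
      · intro i hi
        cases i with
        | zero =>
          have h5 : (1 : ℝ) ≤ l m := by exact_mod_cast hl1 m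
          have h7 : (l m : ℝ) + (x' 0).1 ≠ 0 := by positivity
          have h8 : (l m : ℝ) + (x' 0).2 ≠ 0 := by positivity
          exact ⟨one_div_mul_cancel h7, one_div_mul_cancel h8⟩
        | succ j =>
          have h5 := h2 j (by omega)
          rw [show m + 1 + j = m + (j + 1) by ring] at h5
          exact h5
  obtain ⟨x, hx1, hx2, -⟩ := compact_seq l l univ isClosed_univ (by
    intro M
    obtain ⟨x, h1, h2, h3⟩ := hfin M 0
    refine ⟨x, h1, ?_, h3⟩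
    intro i hi
    have h4 := h2 i hi
    rwa [zero_add] at h4)
  have hpos : ∀ i, 0 < (x i).1 := by
    intro i
    have h1 : 0 ≤ (x i).1 := (hx1 i).1.1
    rcases h1.lt_or_eq with h3 | h3
    · exact h3
    · exfalso
      have h4 := (hx2 i).1
      rw [← h3, zero_mul] at h4
      exact zero_ne_one h4
  have hw : ∀ i, (x i).1 = 1 / (l i + (x (i + 1)).1) := by
    intro i
    have h1 := (hx2 i).1
    have h2 : (0 : ℝ) < l i + (x (i + 1)).1 := by
      have := hpos (i + 1)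
      positivity
    rw [eq_div_iff h2.ne']
    exact h1
  refine ⟨(x 0).1, (x 0).1 / N, G_of_seq l (fun i => (x i).1) hlt hl1 hpos hw, ?_, ?_⟩
  · have h := G_of_seq (fun i => if i % 2 = 0 then N * (N * (i + 1)) else i + 1)
      (fun i => if i % 2 = 0 then (x i).1 / N else N * (x i).1) ?_ ?_ ?_ ?_
    · exact h
    · apply tendsto_atTop_mono (f := fun i : ℕ => i) _ tendsto_id
      intro i
      show i ≤ if i % 2 = 0 then N * (N * (i + 1)) else i + 1
      split_ifs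
      · calc i ≤ i + 1 := Nat.le_succ i
          _ ≤ N * (i + 1) := Nat.le_mul_of_pos_left _ hN
          _ ≤ N * (N * (i + 1)) := Nat.le_mul_of_pos_left _ hN
      · exact Nat.le_succ i
    · intro i
      show 1 ≤ if i % 2 = 0 then N * (N * (i + 1)) else i + 1
      split_ifs
      · exact Nat.mul_pos hN (Nat.mul_pos hN (Nat.succ_pos i))
      · exact Nat.succ_pos i
    · intro i
      have := hpos i
      show 0 < if i % 2 = 0 then (x i).1 / N else N * (x i).1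
      split_ifs <;> positivity
    · intro i
      have h3 := hpos (i + 1)
      have h4 : (0 : ℝ) < l i + (x (i + 1)).1 := by positivity
      show (if i % 2 = 0 then (x i).1 / N else N * (x i).1) =
        1 / (((if i % 2 = 0 then N * (N * (i + 1)) else i + 1 : ℕ) : ℝ) +
          (if (i + 1) % 2 = 0 then (x (i + 1)).1 / N else N * (x (i + 1)).1))
      rcases Nat.mod_two_eq_zero_or_one i with h5 | h5
      · have h6 : ¬ (i + 1) % 2 = 0 := by omega
        rw [if_pos h5, if_pos h5, if_neg h6, hw i, div_div]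
        congr 1
        show (((N * (i + 1) : ℕ) : ℝ) + (x (i + 1)).1) * (N : ℝ) = _
        push_cast
        ring
      · have h6 : (i + 1) % 2 = 0 := by omega
        have h7 : ¬ i % 2 = 0 := by omega
        rw [if_neg h7, if_neg h7, if_pos h6, hw i]
        rw [mul_one_div, div_eq_div_iff h4.ne' (by positivity)]
        show (N : ℝ) * (((i + 1 : ℕ) : ℝ) + (x (i + 1)).1 / N) =
          1 * (((N * (i + 1) : ℕ) : ℝ) + (x (i + 1)).1)
        push_cast
        field_simp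
  · field_simp

lemma Em_zero (Q P : ℕ) (hQ : 0 < Q) : Em ((Q : ℝ) ^ 2) ((P : ℝ) / Q) 0 := by
  obtain ⟨w, z, hw, hz, h⟩ := scale (Q ^ 2) (Nat.pow_pos hQ)
  have hQ' : (0 : ℝ) < Q := by exact_mod_cast hQ
  refine ⟨1 / (((Q ^ 2 + Q * P : ℕ) : ℝ) + w), 1 / (((1 : ℕ) : ℝ) + z), G_cons (le_trans (Nat.pow_pos hQ) (Nat.le_add_right _ _)) hw,
    G_cons (le_refl _) hz, ?_⟩
  rw [zero_div, sub_zero, h]
  have hz0 := hz.1.1
  push_cast
  have h1 : (1 : ℝ) + z ≠ 0 := by positivity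
  have h2 : (Q : ℝ) ^ 2 + Q * P + Q ^ 2 * z ≠ 0 := by positivity
  have h3 : 1 + (P : ℝ) / Q * (1 / (1 + z)) ≠ 0 := by positivity
  field_simp
  ring

lemma step_eq {Q P b : ℕ} (hQ : 0 < Q) (hb : 1 ≤ b) :
    (Q : ℝ) ^ 2 * (b + (P : ℝ) / Q) ^ 2 = ((b * Q + P : ℕ) : ℝ) ^ 2 ∧
      1 / ((b : ℝ) + (P : ℝ) / Q) = (Q : ℝ) / ((b * Q + P : ℕ) : ℝ) := by
  have hQ' : (0 : ℝ) < Q := by exact_mod_cast hQ
  have hb' : (0 : ℝ) < b := by exact_mod_cast hb
  constructor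
  · push_cast
    field_simp
  · push_cast
    have h1 : (b : ℝ) + (P : ℝ) / Q ≠ 0 := by positivity
    have h2 : (b : ℝ) * Q + P ≠ 0 := by positivity
    rw [div_eq_div_iff h1 h2]
    field_simp

lemma Ep_step {Q P b : ℕ} (hQ : 0 < Q) (hb : 1 ≤ b) {x : ℝ} (hx : 0 ≤ x)
    (h : Em (((b * Q + P : ℕ) : ℝ) ^ 2) ((Q : ℝ) / ((b * Q + P : ℕ) : ℝ)) x) :
    Ep ((Q : ℝ) ^ 2) ((P : ℝ) / Q) (1 / (b + x)) := by
  apply Ep_of_Em hb (by positivity) hx
  rw [(step_eq hQ hb).1, (step_eq hQ hb).2]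
  exact h

lemma Em_step {Q P b : ℕ} (hQ : 0 < Q) (hb : 1 ≤ b) {x : ℝ} (hx : 0 ≤ x)
    (h : Ep (((b * Q + P : ℕ) : ℝ) ^ 2) ((Q : ℝ) / ((b * Q + P : ℕ) : ℝ)) x) :
    Em ((Q : ℝ) ^ 2) ((P : ℝ) / Q) (1 / (b + x)) := by
  apply Em_of_Ep hb (by positivity) hx
  rw [(step_eq hQ hb).1, (step_eq hQ hb).2]
  exact h

lemma Ep_one (Q P : ℕ) (hQ : 0 < Q) : Ep ((Q : ℝ) ^ 2) ((P : ℝ) / Q) 1 := by
  have h := Ep_step (P := P) (b := 1) hQ (le_refl _) (le_refl (0 : ℝ))
    (Em_zero (1 * Q + P) Q (by omega))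
  simpa using h

lemma rat_gauss {x : ℚ} (hx0 : 0 < x) (hx1 : x ≤ 1) :
    ∃ (b : ℕ) (y : ℚ), 1 ≤ b ∧ 0 ≤ y ∧ y < 1 ∧ y.num < x.num ∧ x = 1 / (b + y) := by
  have h1 : 1 ≤ x⁻¹ := (one_le_inv₀ hx0).2 hx1
  have h2 : 1 ≤ ⌊x⁻¹⌋ := by
    rw [Int.le_floor]
    exact_mod_cast h1
  refine ⟨⌊x⁻¹⌋.toNat, Int.fract x⁻¹, by omega, Int.fract_nonneg _, Int.fract_lt_one _,
    Rat.fract_inv_num_lt_num_of_pos hx0, ?_⟩
  have h3 : ((⌊x⁻¹⌋.toNat : ℕ) : ℚ) = (⌊x⁻¹⌋ : ℚ) := by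
    have h4 : ((⌊x⁻¹⌋.toNat : ℕ) : ℤ) = ⌊x⁻¹⌋ := Int.toNat_of_nonneg (by omega)
    exact_mod_cast h4
  rw [h3, Int.floor_add_fract, one_div, inv_inv]

lemma rat_case (n : ℕ) : ∀ x : ℚ, x.num.toNat ≤ n →
    ((0 < x ∧ x ≤ 1) → ∀ Q P : ℕ, 0 < Q → Ep ((Q : ℝ) ^ 2) ((P : ℝ) / Q) (x : ℝ)) ∧
    ((0 ≤ x ∧ x < 1) → ∀ Q P : ℕ, 0 < Q → Em ((Q : ℝ) ^ 2) ((P : ℝ) / Q) (x : ℝ)) := by
  induction n with
  | zero =>
    intro x hx
    have hx0 : x ≤ 0 := by
      rw [← Rat.num_nonpos]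
      omega
    refine ⟨fun h => absurd h.1 (not_lt.2 hx0), ?_⟩
    intro h Q P hQ
    have h1 : x = 0 := le_antisymm hx0 h.1
    rw [h1]
    push_cast
    exact Em_zero Q P hQ
  | succ n ih =>
    intro x hx
    rcases le_or_gt x 0 with hx0 | hx0
    · refine ⟨fun h => absurd h.1 (not_lt.2 hx0), ?_⟩
      intro h Q P hQ
      have h1 : x = 0 := le_antisymm hx0 h.1
      rw [h1]
      push_cast
      exact Em_zero Q P hQ
    · have hnum : 0 < x.num := Rat.num_pos.2 hx0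
      constructor
      · rintro ⟨-, hx1⟩ Q P hQ
        obtain ⟨b, y, hb, hy0, hy1, hyn, hxy⟩ := rat_gauss hx0 hx1
        have h1 : (x : ℝ) = 1 / (b + (y : ℝ)) := by
          rw [hxy]
          push_cast
          rfl
        rw [h1]
        have hy0' : (0 : ℝ) ≤ y := by exact_mod_cast hy0
        exact Ep_step hQ hb hy0' ((ih y (by omega)).2 ⟨hy0, hy1⟩ _ _ (by
          have : 0 < b * Q := Nat.mul_pos hb hQ
          omega))
      · rintro ⟨-, hx1⟩ Q P hQ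
        obtain ⟨b, y, hb, hy0, hy1, hyn, hxy⟩ := rat_gauss hx0 hx1.le
        rcases hy0.lt_or_eq with hy | hy
        · have h1 : (x : ℝ) = 1 / (b + (y : ℝ)) := by
            rw [hxy]
            push_cast
            rfl
          rw [h1]
          have hy0' : (0 : ℝ) ≤ y := by exact_mod_cast hy0
          exact Em_step hQ hb hy0' ((ih y (by omega)).1 ⟨hy, hy1.le⟩ _ _ (by
            have : 0 < b * Q := Nat.mul_pos hb hQ
            omega))
        · have hb2 : 2 ≤ b := by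
            by_contra hb2
            have hb1 : b = 1 := by omega
            rw [← hy, hb1] at hxy
            norm_num at hxy
            linarith
          have h1 : (x : ℝ) = 1 / (((b - 1 : ℕ) : ℝ) + 1) := by
            rw [hxy, ← hy, Nat.cast_sub (by omega)]
            push_cast
            ring
          rw [h1]
          exact Em_step hQ (by omega) zero_le_one (Ep_one _ _ (by
            have : 0 < (b - 1) * Q := Nat.mul_pos (by omega) hQ
            omega))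

theorem sum_thm (x : ℝ) (hx0 : 0 < x) (hx1 : x ≤ 1) : ∃ w z : ℝ, G w ∧ G z ∧ x = w + z := by
  have h : Ep 1 0 x := by
    by_cases hF : x ∈ F
    · obtain ⟨q, hq⟩ := hF
      have hq' : x = (q : ℝ) := hq.symm
      have h1 := (rat_case q.num.toNat q (le_refl _)).1 ⟨by
        have : (0 : ℝ) < q := by rw [← hq']; exact hx0
        exact_mod_cast this, by
        have : (q : ℝ) ≤ 1 := by rw [← hq']; exact hx1
        exact_mod_cast this⟩ 1 0 Nat.one_pos
      rw [hq']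
      simpa using h1
    · have hx2 : x < 1 := by
        rcases hx1.lt_or_eq with h1 | h1
        · exact h1
        · exfalso
          apply hF
          rw [h1]
          exact F.one_mem
      exact Ep_irr' 2 (by norm_num) one_pos F.one_mem (le_refl _) zero_le_one F.zero_mem hx0 hx2 hF
  obtain ⟨w, z, hw, hz, h1⟩ := h
  refine ⟨w, z, hw, hz, ?_⟩
  simp only [one_mul, zero_mul, add_zero, div_one] at h1
  linarith

end Pool.Agent.V11292.G
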