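import Mathlib

/-!
# Numbers with partial quotients tending to infinity: basic closure properties
-/

set_option autoImplicit false

namespace Pool.Agent.V11292.G

open Filter Set

/-- The Gauss map. -/
noncomputable def T : ℝ → ℝ := fun y : ℝ => Int.fract (1 / y)

/-- The numbers in `(0, 1)` whose partial quotients tend to infinity. -/
def G (g : ℝ) : Prop :=
  g ∈ Ioo (0 : ℝ) 1 ∧ Tendsto (fun n : ℕ => ⌊1 / (T^[n] g)⌋) atTop atTop

lemma T_cons {k : ℕ} {z : ℝ} (hz0 : 0 ≤ z) (hz1 : z < 1) : T (1 / (k + z)) = z := by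
  unfold T
  rw [one_div_one_div, add_comm, Int.fract_add_natCast, Int.fract_eq_self]
  exact ⟨hz0, hz1⟩

lemma cons_mem {k : ℕ} (hk : 1 ≤ k) {z : ℝ} (hz0 : 0 < z) : 1 / ((k : ℝ) + z) ∈ Ioo (0 : ℝ) 1 := by
  have hk' : (1 : ℝ) ≤ k := by exact_mod_cast hk
  constructor
  · positivity
  · rw [div_lt_one (by positivity)]
    linarith

lemma G_cons {k : ℕ} (hk : 1 ≤ k) {z : ℝ} (hz : G z) : G (1 / (k + z)) := by
  refine ⟨cons_mem hk hz.1.1, ?_⟩
  rw [← tendsto_add_atTop_iff_nat 1]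
  simp only [Function.iterate_succ_apply, T_cons hz.1.1.le hz.1.2]
  exact hz.2

/-- A number with a given infinite sequence of complete quotients. -/
lemma G_of_seq (l : ℕ → ℕ) (w : ℕ → ℝ) (hl : Tendsto l atTop atTop) (hl1 : ∀ i, 1 ≤ l i)
    (hw0 : ∀ i, 0 < w i) (hw : ∀ i, w i = 1 / (l i + w (i + 1))) : G (w 0) := by
  have hw1 : ∀ i, w i < 1 := by
    intro i
    rw [hw i]
    exact (cons_mem (hl1 i) (hw0 (i + 1))).2
  have hT : ∀ n, T^[n] (w 0) = w n := by
    intro n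
    induction n with
    | zero => rfl
    | succ n ih =>
      rw [Function.iterate_succ_apply', ih, hw n, T_cons (hw0 _).le (hw1 _)]
  refine ⟨⟨hw0 0, hw1 0⟩, ?_⟩
  have h1 : ∀ n, ⌊1 / (T^[n] (w 0))⌋ = (l n : ℤ) := by
    intro n
    rw [hT, hw n, one_div_one_div, Int.floor_natCast_add, Int.floor_eq_zero_iff.2 ⟨(hw0 _).le, hw1 _⟩,
      add_zero]
  simp only [h1]
  exact tendsto_natCast_atTop_iff.2 hl

/-- Compactness: finite systems solvable imply the infinite system is solvable. -/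
lemma compact_seq (l k : ℕ → ℕ) (S : Set (ℝ × ℝ)) (hS : IsClosed S)
    (h : ∀ N : ℕ, ∃ x : ℕ → ℝ × ℝ, (∀ i, x i ∈ Icc (0 : ℝ × ℝ) 1) ∧
      (∀ i < N, (x i).1 * (l i + (x (i + 1)).1) = 1 ∧ (x i).2 * (k i + (x (i + 1)).2) = 1) ∧
      x 0 ∈ S) :
    ∃ x : ℕ → ℝ × ℝ, (∀ i, x i ∈ Icc (0 : ℝ × ℝ) 1) ∧
      (∀ i, (x i).1 * (l i + (x (i + 1)).1) = 1 ∧ (x i).2 * (k i + (x (i + 1)).2) = 1) ∧
      x 0 ∈ S := by
  let K : ℕ → Set (ℕ → ℝ × ℝ) := fun N => {x | (∀ i, x i ∈ Icc (0 : ℝ × ℝ) 1) ∧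
      (∀ i < N, (x i).1 * (l i + (x (i + 1)).1) = 1 ∧ (x i).2 * (k i + (x (i + 1)).2) = 1) ∧
      x 0 ∈ S}
  have hcl : ∀ N, IsClosed (K N) := by
    intro N
    have h1 : K N = (⋂ i, {x : ℕ → ℝ × ℝ | x i ∈ Icc (0 : ℝ × ℝ) 1}) ∩
        ((⋂ i : ℕ, ⋂ _ : i < N, {x : ℕ → ℝ × ℝ | (x i).1 * (l i + (x (i + 1)).1) = 1 ∧
          (x i).2 * (k i + (x (i + 1)).2) = 1}) ∩ {x | x 0 ∈ S}) := by
      ext x
      simp only [K, mem_setOf_eq, mem_inter_iff, mem_iInter]
    rw [h1]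
    apply IsClosed.inter
    · apply isClosed_iInter
      intro i
      exact isClosed_Icc.preimage (continuous_apply i)
    · apply IsClosed.inter
      · apply isClosed_iInter
        intro i
        apply isClosed_iInter
        intro _
        apply IsClosed.inter
        · apply isClosed_eq
          · fun_prop
          · fun_prop
        · apply isClosed_eq
          · fun_prop
          · fun_prop
      · exact hS.preimage (continuous_apply 0)
  have hcomp : IsCompact (K 0) := by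
    apply IsCompact.of_isClosed_subset (isCompact_univ_pi
      (fun _ : ℕ => (isCompact_Icc : IsCompact (Icc (0 : ℝ × ℝ) 1)))) (hcl 0)
    intro x hx i _
    exact hx.1 i
  have hmono : ∀ i, K (i + 1) ⊆ K i := by
    intro i x hx
    exact ⟨hx.1, fun j hj => hx.2.1 j (by omega), hx.2.2⟩
  obtain ⟨x, hx⟩ := IsCompact.nonempty_iInter_of_sequence_nonempty_isCompact_isClosed K hmono
    (fun N => h N) hcomp hcl
  rw [mem_iInter] at hx
  exact ⟨x, (hx 0).1, fun i => (hx (i + 1)).2.1 i (by omega), (hx 0).2.2⟩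

end Pool.Agent.V11292.G
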