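import Pool.Agent.V11292.G.Step

/-!
# Solving the relation of a valid state, and the sum theorem
-/

set_option autoImplicit false

namespace Pool.Agent.V11292.G

open Filter Set

lemma exists_seq (V₀ : ℝ) (hV : 16 ≤ V₀) (s₀ : St) (hs : Valid V₀ s₀) :
    ∃ (s : ℕ → St) (l k : ℕ → ℕ), s 0 = s₀ ∧ ∀ i : ℕ, Valid (V₀ + i) (s i) ∧
      (V₀ + i) / 4 - 2 ≤ l i ∧ (V₀ + i) / 4 - 2 ≤ k i ∧ s (i + 1) = next (s i) (l i) (k i) := by
  have h : ∀ p : ℕ × St, ∃ q : ℕ × ℕ, Valid (V₀ + p.1) p.2 →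
      (V₀ + p.1) / 4 - 2 ≤ q.1 ∧ (V₀ + p.1) / 4 - 2 ≤ q.2 ∧
        Valid (V₀ + p.1 + 1) (next p.2 q.1 q.2) := by
    intro p
    by_cases hp : Valid (V₀ + p.1) p.2
    · have h16 : 16 ≤ V₀ + p.1 := by
        have : (0 : ℝ) ≤ p.1 := Nat.cast_nonneg _
        linarith
      obtain ⟨l, k, h1, h2, h3⟩ := step (V₀ + p.1) h16 p.2 hp
      exact ⟨(l, k), fun _ => ⟨h1, h2, h3⟩⟩
    · exact ⟨(0, 0), fun h => absurd h hp⟩
  choose g hg using h
  let s : ℕ → St := fun i => Nat.rec s₀ (fun i si => next si (g (i, si)).1 (g (i, si)).2) i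
  have hval : ∀ i : ℕ, Valid (V₀ + i) (s i) := by
    intro i
    induction i with
    | zero =>
      show Valid (V₀ + ((0 : ℕ) : ℝ)) s₀
      simpa using hs
    | succ i ih =>
      have h1 := (hg (i, s i) ih).2.2
      have h2 : (V₀ + ((i + 1 : ℕ) : ℝ)) = V₀ + i + 1 := by push_cast; ring
      rw [h2]
      exact h1
  refine ⟨s, fun i => (g (i, s i)).1, fun i => (g (i, s i)).2, rfl, ?_⟩
  intro i
  have h1 := hg (i, s i) (hval i)
  exact ⟨hval i, h1.1, h1.2.1, rfl⟩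

lemma finite_sys (V₀ : ℝ) (hV : 16 ≤ V₀) (s : ℕ → St) (l k : ℕ → ℕ)
    (hl1 : ∀ i, 1 ≤ l i) (hk1 : ∀ i, 1 ≤ k i)
    (h : ∀ i : ℕ, Valid (V₀ + i) (s i) ∧ s (i + 1) = next (s i) (l i) (k i)) (N : ℕ) :
    ∀ m : ℕ, ∃ x : ℕ → ℝ × ℝ, (∀ i, x i ∈ Icc (0 : ℝ × ℝ) 1) ∧
      (∀ i < N, (x i).1 * (l (m + i) + (x (i + 1)).1) = 1 ∧
        (x i).2 * (k (m + i) + (x (i + 1)).2) = 1) ∧ Rel (s m) (x 0).1 (x 0).2 := by
  induction N with
  | zero =>
    intro m
    have h16 : 16 ≤ V₀ + m := by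
      have : (0 : ℝ) ≤ m := Nat.cast_nonneg _
      linarith
    obtain ⟨w, z, hw0, hw1, hz0, hz1, hr⟩ := rel_base (V₀ + m) h16 (s m) (h m).1
    refine ⟨fun _ => (w, z), fun _ => ⟨⟨hw0, hz0⟩, ⟨hw1, hz1⟩⟩, ?_, hr⟩
    intro i hi
    exact absurd hi (by omega)
  | succ N ih =>
    intro m
    obtain ⟨x', h1, h2, h3⟩ := ih (m + 1)
    have hm := h m
    rw [hm.2] at h3
    have hx0 := h1 0
    have hp1 : 0 ≤ (x' 0).1 := hx0.1.1
    have hp2 : 0 ≤ (x' 0).2 := hx0.1.2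
    have h4 := rel_next hm.1.2.2.1 hm.1.2.2.2.2.1 (hl1 m) (hk1 m) hp1 hp2 h3
    refine ⟨fun i => Nat.casesOn i (1 / ((l m : ℝ) + (x' 0).1), 1 / ((k m : ℝ) + (x' 0).2))
      (fun j => x' j), ?_, ?_, h4⟩
    · intro i
      cases i with
      | zero =>
        have h5 := inv_mem (hl1 m) hp1
        have h6 := inv_mem (hk1 m) hp2
        exact ⟨⟨h5.1, h6.1⟩, ⟨h5.2, h6.2⟩⟩
      | succ j => exact h1 j
    · intro i hi
      cases i with
      | zero =>
        have h5 : (1 : ℝ) ≤ l m := by exact_mod_cast hl1 m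
        have h6 : (1 : ℝ) ≤ k m := by exact_mod_cast hk1 m
        have h7 : (l m : ℝ) + (x' 0).1 ≠ 0 := by positivity
        have h8 : (k m : ℝ) + (x' 0).2 ≠ 0 := by positivity
        exact ⟨one_div_mul_cancel h7, one_div_mul_cancel h8⟩
      | succ j =>
        have h5 := h2 j (by omega)
        rw [show m + 1 + j = m + (j + 1) by ring] at h5
        exact h5

lemma tendsto_of_ge (V₀ : ℝ) (l : ℕ → ℕ) (h : ∀ i : ℕ, (V₀ + i) / 4 - 2 ≤ l i) :
    Tendsto l atTop atTop := by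
  rw [← tendsto_natCast_atTop_iff (R := ℝ)]
  apply tendsto_atTop_mono h
  apply tendsto_atTop_add_const_right
  apply Tendsto.atTop_div_const (by norm_num)
  exact tendsto_atTop_add_const_left _ _ tendsto_natCast_atTop_atTop

theorem solve (V : ℝ) (hV : 16 ≤ V) (s : St) (hs : Valid V s) :
    ∃ w z : ℝ, G w ∧ G z ∧ Rel s w z := by
  obtain ⟨S, l, k, hS0, h⟩ := exists_seq V hV s hs
  have hi0 : ∀ i : ℕ, (0 : ℝ) ≤ i := fun i => Nat.cast_nonneg _
  have hl1 : ∀ i, 1 ≤ l i := by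
    intro i
    have h1 := (h i).2.1
    have h2 := hi0 i
    have h3 : (1 : ℝ) ≤ l i := by linarith
    exact_mod_cast h3
  have hk1 : ∀ i, 1 ≤ k i := by
    intro i
    have h1 := (h i).2.2.1
    have h2 := hi0 i
    have h3 : (1 : ℝ) ≤ k i := by linarith
    exact_mod_cast h3
  have hfin := finite_sys V hV S l k hl1 hk1 (fun i => ⟨(h i).1, (h i).2.2.2⟩)
  obtain ⟨hA, hB, hθ0, hθ1, hφ0, hφ1, -⟩ := hs
  obtain ⟨x, hx1, hx2, hx3⟩ := compact_seq l k
    {p : ℝ × ℝ | s.A * (p.1 * (1 + s.φ * p.2)) - s.B * (p.2 * (1 + s.θ * p.1)) =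
      s.C * ((1 + s.θ * p.1) * (1 + s.φ * p.2))} (by
      apply isClosed_eq
      · fun_prop
      · fun_prop) (by
      intro N
      obtain ⟨x, h1, h2, h3⟩ := hfin N 0
      refine ⟨x, h1, ?_, ?_⟩
      · intro i hi
        have h4 := h2 i hi
        rwa [zero_add] at h4
      · rw [hS0] at h3
        unfold Rel at h3
        have h5 : 0 ≤ (x 0).1 := (h1 0).1.1
        have h6 : 0 ≤ (x 0).2 := (h1 0).1.2
        have h7 : 1 + s.θ * (x 0).1 ≠ 0 := by positivity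
        have h8 : 1 + s.φ * (x 0).2 ≠ 0 := by positivity
        show s.A * ((x 0).1 * (1 + s.φ * (x 0).2)) - s.B * ((x 0).2 * (1 + s.θ * (x 0).1)) =
          s.C * ((1 + s.θ * (x 0).1) * (1 + s.φ * (x 0).2))
        rw [← h3]
        field_simp)
  have hpos : ∀ i, 0 < (x i).1 ∧ 0 < (x i).2 := by
    intro i
    have h1 : 0 ≤ (x i).1 := (hx1 i).1.1
    have h2 : 0 ≤ (x i).2 := (hx1 i).1.2
    constructor
    · rcases h1.lt_or_eq with h3 | h3
      · exact h3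
      · exfalso
        have h4 := (hx2 i).1
        rw [← h3, zero_mul] at h4
        exact zero_ne_one h4
    · rcases h2.lt_or_eq with h3 | h3
      · exact h3
      · exfalso
        have h4 := (hx2 i).2
        rw [← h3, zero_mul] at h4
        exact zero_ne_one h4
  refine ⟨(x 0).1, (x 0).2, ?_, ?_, ?_⟩
  · apply G_of_seq l (fun i => (x i).1) (tendsto_of_ge V l (fun i => (h i).2.1)) hl1
      (fun i => (hpos i).1)
    intro i
    have h1 := (hx2 i).1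
    have h2 : (0 : ℝ) < l i + (x (i + 1)).1 := by
      have := (hpos (i + 1)).1
      positivity
    rw [eq_div_iff h2.ne']
    exact h1
  · apply G_of_seq k (fun i => (x i).2) (tendsto_of_ge V k (fun i => (h i).2.2.1)) hk1
      (fun i => (hpos i).2)
    intro i
    have h1 := (hx2 i).2
    have h2 : (0 : ℝ) < k i + (x (i + 1)).2 := by
      have := (hpos (i + 1)).2
      positivity
    rw [eq_div_iff h2.ne']
    exact h1
  · have h1 : s.A * ((x 0).1 * (1 + s.φ * (x 0).2)) - s.B * ((x 0).2 * (1 + s.θ * (x 0).1)) =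
      s.C * ((1 + s.θ * (x 0).1) * (1 + s.φ * (x 0).2)) := hx3
    have h5 := (hpos 0).1
    have h6 := (hpos 0).2
    have h7 : 1 + s.θ * (x 0).1 ≠ 0 := by positivity
    have h8 : 1 + s.φ * (x 0).2 ≠ 0 := by positivity
    unfold Rel
    rw [mul_div_assoc', mul_div_assoc', div_sub_div _ _ h7 h8, div_eq_iff (mul_ne_zero h7 h8)]
    linear_combination h1

end Pool.Agent.V11292.G
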