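import Pool.Agent.V11292.G.Base

/-!
# The two-variable continued fraction algorithm
-/

set_option autoImplicit false

namespace Pool.Agent.V11292.G

open Filter Set

/-- The rational numbers as a subfield of the real numbers. -/
noncomputable def F : Subfield ℝ := (Rat.castHom ℝ).fieldRange

lemma nat_mem_F (n : ℕ) : (n : ℝ) ∈ F := natCast_mem F n

lemma core (V a α b β c : ℝ) (hV : 16 ≤ V) (ha : 0 < a) (hb : 0 < b) (hc : 0 < c)
    (hα0 : 0 ≤ α) (hα1 : α ≤ 1) (hβ0 : 0 ≤ β) (hβ1 : β ≤ 1) (h1 : V * c ^ 2 ≤ a * b)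
    (h2 : c * V ≤ 4 * a) (hFa : a ∈ F) (hFα : α ∈ F) (hFb : b ∈ F) (hFβ : β ∈ F) (hFc : c ∉ F) :
    ∃ i j : ℕ, V / 4 - 2 ≤ i ∧ V / 4 - 2 ≤ j ∧
      (V + 1) * (a / (i + α) - b / (j + β) - c) ^ 2 ≤ a / (i + α) ^ 2 * (b / (j + β) ^ 2) ∧
      ((0 < a / (i + α) - b / (j + β) - c ∧
        (a / (i + α) - b / (j + β) - c) * (V + 1) ≤ 4 * (a / (i + α) ^ 2)) ∨
       (a / (i + α) - b / (j + β) - c < 0 ∧
        -(a / (i + α) - b / (j + β) - c) * (V + 1) ≤ 4 * (b / (j + β) ^ 2))) := by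
  have hac : V / 4 ≤ a / c := by
    rw [div_le_div_iff₀ (by norm_num) hc]
    linarith
  obtain ⟨i, hi⟩ : ∃ i : ℕ, i = ⌊a / c - α⌋₊ := ⟨_, rfl⟩
  have hi1 : (i : ℝ) ≤ a / c - α := by
    rw [hi]
    exact Nat.floor_le (by linarith)
  have hi2 : a / c - α < i + 1 := by
    rw [hi]
    exact Nat.lt_floor_add_one _
  obtain ⟨I, hI⟩ : ∃ I : ℝ, I = i + α := ⟨_, rfl⟩
  have hFI : I ∈ F := by
    rw [hI]
    exact F.add_mem (nat_mem_F i) hFα
  have hI0 : 0 < I := by linarith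
  have hIc : I * c < a := by
    have h3 : I ≤ a / c := by linarith
    rw [le_div_iff₀ hc] at h3
    rcases h3.lt_or_eq with h4 | h4
    · exact h4
    · exfalso
      apply hFc
      have h5 : c = a / I := by
        rw [← h4]
        field_simp
      rw [h5]
      exact F.div_mem hFa hFI
  have hIc2 : a < (I + 1) * c := by
    have h3 : a / c < I + 1 := by linarith
    rwa [div_lt_iff₀ hc] at h3
  obtain ⟨e, he⟩ : ∃ e : ℝ, e = a / I - c := ⟨_, rfl⟩
  have he0 : 0 < e := by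
    rw [he, sub_pos, lt_div_iff₀ hI0]
    linarith
  have heI : e * I < c := by
    have h3 : e * I = a - c * I := by
      rw [he]
      field_simp
    rw [h3]
    linarith
  have hFe : e ∉ F := by
    intro h3
    apply hFc
    have h4 : c = a / I - e := by rw [he]; ring
    rw [h4]
    exact F.sub_mem (F.div_mem hFa hFI) h3
  obtain ⟨X, hX⟩ : ∃ X : ℝ, X = b / e := ⟨_, rfl⟩
  have hX0 : 0 < X := by rw [hX]; positivity
  have hXe : X * e = b := by
    rw [hX]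
    field_simp
  have heX : e = b / X := by
    rw [← hXe]
    field_simp
  have hFX : X ∉ F := by
    intro h3
    apply hFe
    rw [heX]
    exact F.div_mem hFb h3
  have hX1 : b * I < X * c := by
    calc b * I = X * (e * I) := by rw [← hXe]; ring
      _ < X * c := mul_lt_mul_of_pos_left heI hX0
  have hX2 : V - 4 < X := by
    have h3 : (V - 4) * c ^ 2 < X * c ^ 2 := by
      have h4 : b * (a - c) < X * c ^ 2 := by
        calc b * (a - c) < b * (I * c) := by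
              apply mul_lt_mul_of_pos_left _ hb
              linarith
          _ = b * I * c := by ring
          _ < X * c * c := mul_lt_mul_of_pos_right hX1 hc
          _ = X * c ^ 2 := by ring
      have h5 : V * (b * (a - c)) ≥ V * ((V - 4) * c ^ 2) := by
        have h6 : b * (c * V) ≤ b * (4 * a) := mul_le_mul_of_nonneg_left h2 hb.le
        have h7 : (V - 4) * (V * c ^ 2) ≤ (V - 4) * (a * b) :=
          mul_le_mul_of_nonneg_left h1 (by linarith)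
        nlinarith
      have h8 : (V - 4) * c ^ 2 ≤ b * (a - c) := le_of_mul_le_mul_left h5 (by linarith)
      linarith
    exact lt_of_mul_lt_mul_right h3 (by positivity)
  have hkey : V * b * I ^ 2 < a * X ^ 2 := by
    have h3 : (b * I) ^ 2 < (X * c) ^ 2 := pow_lt_pow_left₀ hX1 (by positivity) (by norm_num)
    have h4 : a * (b * I) ^ 2 < a * (X * c) ^ 2 := mul_lt_mul_of_pos_left h3 ha
    have h5 : V * c ^ 2 * (b * I ^ 2) ≤ a * b * (b * I ^ 2) :=
      mul_le_mul_of_nonneg_right h1 (by positivity)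
    have h6 : V * b * I ^ 2 * c ^ 2 < a * X ^ 2 * c ^ 2 := by nlinarith
    exact lt_of_mul_lt_mul_right h6 (by positivity)
  obtain ⟨j₀, hj₀⟩ : ∃ j₀ : ℕ, j₀ = ⌊X - β⌋₊ := ⟨_, rfl⟩
  have hj1 : (j₀ : ℝ) ≤ X - β := by
    rw [hj₀]
    exact Nat.floor_le (by linarith)
  have hj2 : X - β < j₀ + 1 := by
    rw [hj₀]
    exact Nat.lt_floor_add_one _
  obtain ⟨f, hf⟩ : ∃ f : ℝ, f = X - β - j₀ := ⟨_, rfl⟩
  have hf0 : 0 < f := by
    have h3 : 0 ≤ f := by linarith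
    rcases h3.lt_or_eq with h4 | h4
    · exact h4
    · exfalso
      apply hFX
      have h5 : X = β + j₀ := by linarith
      rw [h5]
      exact F.add_mem hFβ (nat_mem_F j₀)
  have hf1 : f < 1 := by linarith
  have hV0 : 0 < V := by linarith
  have hI3 : V / 4 - 2 ≤ i := by linarith
  rcases le_or_gt 3 (f * V) with hfV | hfV
  · -- the positive option
    refine ⟨i, j₀ + 1, hI3, by push_cast; linarith, ?_⟩
    obtain ⟨J, hJ⟩ : ∃ J : ℝ, J = ((j₀ + 1 : ℕ) : ℝ) + β := ⟨_, rfl⟩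
    rw [← hI, ← hJ]
    obtain ⟨y, hy⟩ : ∃ y : ℝ, y = 1 - f := ⟨_, rfl⟩
    have hJX : J = X + y := by
      rw [hJ, hy]
      push_cast
      linarith
    have hy0 : 0 < y := by linarith
    have hy1 : y * V ≤ V - 3 := by
      rw [hy]
      linarith
    have hJ0 : 0 < J := by linarith
    have hc' : a / I - b / J - c = b * y / (X * J) := by
      have h3 : a / I - b / J - c = e - b / J := by rw [he]; ring
      rw [h3, heX, div_sub_div _ _ hX0.ne' hJ0.ne', hJX]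
      ring
    rw [hc']
    have hVy : (V + 1) * y ^ 2 ≤ V := by
      have h3 : (y * V) ^ 2 ≤ (V - 3) ^ 2 := pow_le_pow_left₀ (by positivity) hy1 2
      have h4 : (V + 1) * y ^ 2 * V ^ 2 ≤ V * V ^ 2 := by
        calc (V + 1) * y ^ 2 * V ^ 2 = (V + 1) * (y * V) ^ 2 := by ring
          _ ≤ (V + 1) * (V - 3) ^ 2 := mul_le_mul_of_nonneg_left h3 (by linarith)
          _ ≤ V * V ^ 2 := by nlinarith
      exact le_of_mul_le_mul_right h4 (by positivity)
    refine ⟨?_, Or.inl ⟨by positivity, ?_⟩⟩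
    · rw [div_mul_div_comm, div_pow, mul_div_assoc', div_le_div_iff₀ (by positivity)
        (by positivity)]
      have h3 : (V + 1) * y ^ 2 * (b * I ^ 2) ≤ a * X ^ 2 := by
        calc (V + 1) * y ^ 2 * (b * I ^ 2) ≤ V * (b * I ^ 2) :=
              mul_le_mul_of_nonneg_right hVy (by positivity)
          _ = V * b * I ^ 2 := by ring
          _ ≤ a * X ^ 2 := hkey.le
      calc (V + 1) * (b * y) ^ 2 * (I ^ 2 * J ^ 2)
          = (V + 1) * y ^ 2 * (b * I ^ 2) * (b * J ^ 2) := by ring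
        _ ≤ a * X ^ 2 * (b * J ^ 2) := mul_le_mul_of_nonneg_right h3 (by positivity)
        _ = a * b * (X * J) ^ 2 := by ring
    · rw [div_mul_eq_mul_div, mul_div_assoc', div_le_div_iff₀ (by positivity) (by positivity)]
      have hy2 : y ≤ 1 := by linarith
      have h3 : b * y * (V + 1) * I ^ 2 ≤ b * 1 * (V + V) * I ^ 2 := by
        gcongr
        linarith
      have h4 : X ^ 2 ≤ X * J := by
        rw [sq]
        apply mul_le_mul_of_nonneg_left _ hX0.le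
        linarith
      have h5 : a * X ^ 2 ≤ a * (X * J) := mul_le_mul_of_nonneg_left h4 ha.le
      have h6 : 0 ≤ a * (X * J) := by positivity
      calc b * y * (V + 1) * I ^ 2 ≤ b * 1 * (V + V) * I ^ 2 := h3
        _ = 2 * (V * b * I ^ 2) := by ring
        _ ≤ 2 * (a * (X * J)) := by linarith
        _ ≤ 4 * (a * (X * J)) := by linarith
        _ = 4 * a * (X * J) := by ring
  · -- the negative option
    refine ⟨i, j₀, hI3, by linarith, ?_⟩
    obtain ⟨J, hJ⟩ : ∃ J : ℝ, J = (j₀ : ℝ) + β := ⟨_, rfl⟩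
    rw [← hI, ← hJ]
    have hJX : J = X - f := by
      rw [hJ]
      linarith
    have hJ0 : 0 < J := by linarith
    have hc' : a / I - b / J - c = -(b * f / (X * J)) := by
      have h3 : a / I - b / J - c = e - b / J := by rw [he]; ring
      rw [h3, heX, div_sub_div _ _ hX0.ne' hJ0.ne', hJX]
      ring
    rw [hc']
    have hVf : (V + 1) * f ^ 2 ≤ V := by
      have h3 : (f * V) ^ 2 ≤ 3 ^ 2 := pow_le_pow_left₀ (by positivity) hfV.le 2
      have h4 : (V + 1) * f ^ 2 * V ^ 2 ≤ V * V ^ 2 := by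
        calc (V + 1) * f ^ 2 * V ^ 2 = (V + 1) * (f * V) ^ 2 := by ring
          _ ≤ (V + 1) * 3 ^ 2 := mul_le_mul_of_nonneg_left h3 (by linarith)
          _ ≤ V * V ^ 2 := by nlinarith
      exact le_of_mul_le_mul_right h4 (by positivity)
    refine ⟨?_, Or.inr ⟨by rw [neg_lt_zero]; positivity, ?_⟩⟩
    · rw [div_mul_div_comm, neg_sq, div_pow, mul_div_assoc', div_le_div_iff₀ (by positivity)
        (by positivity)]
      have h3 : (V + 1) * f ^ 2 * (b * I ^ 2) ≤ a * X ^ 2 := by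
        calc (V + 1) * f ^ 2 * (b * I ^ 2) ≤ V * (b * I ^ 2) :=
              mul_le_mul_of_nonneg_right hVf (by positivity)
          _ = V * b * I ^ 2 := by ring
          _ ≤ a * X ^ 2 := hkey.le
      calc (V + 1) * (b * f) ^ 2 * (I ^ 2 * J ^ 2)
          = (V + 1) * f ^ 2 * (b * I ^ 2) * (b * J ^ 2) := by ring
        _ ≤ a * X ^ 2 * (b * J ^ 2) := mul_le_mul_of_nonneg_right h3 (by positivity)
        _ = a * b * (X * J) ^ 2 := by ring
    · rw [neg_neg, div_mul_eq_mul_div, mul_div_assoc', div_le_div_iff₀ (by positivity)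
        (by positivity)]
      have h3 : f * (V + 1) ≤ 4 := by nlinarith
      have h4 : J * (f * (V + 1)) ≤ X * 4 := by
        apply mul_le_mul (by linarith) h3 (by positivity) hX0.le
      calc b * f * (V + 1) * J ^ 2 = (b * J) * (J * (f * (V + 1))) := by ring
        _ ≤ (b * J) * (X * 4) := mul_le_mul_of_nonneg_left h4 (by positivity)
        _ = 4 * b * (X * J) := by ring

/-- The states of the algorithm. -/
structure St where
  A : ℝ
  θ : ℝ
  B : ℝ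
  φ : ℝ
  C : ℝ

/-- The valid states. -/
def Valid (V : ℝ) (s : St) : Prop :=
  0 < s.A ∧ 0 < s.B ∧ 0 ≤ s.θ ∧ s.θ ≤ 1 ∧ 0 ≤ s.φ ∧ s.φ ≤ 1 ∧ V * s.C ^ 2 ≤ s.A * s.B ∧
    ((0 < s.C ∧ s.C * V ≤ 4 * s.A) ∨ (s.C < 0 ∧ -s.C * V ≤ 4 * s.B)) ∧
    s.A ∈ F ∧ s.θ ∈ F ∧ s.B ∈ F ∧ s.φ ∈ F ∧ s.C ∉ F

/-- The next state. -/
noncomputable def next (s : St) (l k : ℕ) : St :=
  ⟨s.A / (l + s.θ) ^ 2, 1 / (l + s.θ), s.B / (k + s.φ) ^ 2, 1 / (k + s.φ),
    s.A / (l + s.θ) - s.B / (k + s.φ) - s.C⟩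

/-- The relation of a state. -/
def Rel (s : St) (w z : ℝ) : Prop :=
  s.A * (w / (1 + s.θ * w)) - s.B * (z / (1 + s.φ * z)) = s.C

lemma inv_mem {l : ℕ} (hl : 1 ≤ l) {θ : ℝ} (h : 0 ≤ θ) : 0 ≤ 1 / ((l : ℝ) + θ) ∧
    1 / ((l : ℝ) + θ) ≤ 1 := by
  have hl' : (1 : ℝ) ≤ l := by exact_mod_cast hl
  refine ⟨by positivity, ?_⟩
  rw [div_le_one (by positivity)]
  linarith

lemma step (V : ℝ) (hV : 16 ≤ V) (s : St) (hs : Valid V s) :
    ∃ l k : ℕ, V / 4 - 2 ≤ l ∧ V / 4 - 2 ≤ k ∧ Valid (V + 1) (next s l k) := by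
  obtain ⟨hA, hB, hθ0, hθ1, hφ0, hφ1, h1, h2, hFA, hFθ, hFB, hFφ, hFC⟩ := hs
  have hmain : ∀ l k : ℕ, V / 4 - 2 ≤ l → V / 4 - 2 ≤ k →
      (V + 1) * (next s l k).C ^ 2 ≤ (next s l k).A * (next s l k).B →
      ((0 < (next s l k).C ∧ (next s l k).C * (V + 1) ≤ 4 * (next s l k).A) ∨
        ((next s l k).C < 0 ∧ -(next s l k).C * (V + 1) ≤ 4 * (next s l k).B)) →
      Valid (V + 1) (next s l k) := by
    intro l k hl hk h3 h4
    have hl1 : (1 : ℝ) ≤ l := by linarith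
    have hk1 : (1 : ℝ) ≤ k := by linarith
    have hl1' : 1 ≤ l := by exact_mod_cast hl1
    have hk1' : 1 ≤ k := by exact_mod_cast hk1
    have hlF : (l : ℝ) + s.θ ∈ F := F.add_mem (nat_mem_F l) hFθ
    have hkF : (k : ℝ) + s.φ ∈ F := F.add_mem (nat_mem_F k) hFφ
    refine ⟨?_, ?_, (inv_mem hl1' hθ0).1, (inv_mem hl1' hθ0).2, (inv_mem hk1' hφ0).1,
      (inv_mem hk1' hφ0).2, h3, h4, F.div_mem hFA (F.pow_mem hlF 2), F.div_mem F.one_mem hlF,
      F.div_mem hFB (F.pow_mem hkF 2), F.div_mem F.one_mem hkF, ?_⟩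
    · show 0 < s.A / (l + s.θ) ^ 2
      positivity
    · show 0 < s.B / (k + s.φ) ^ 2
      positivity
    · intro h5
      apply hFC
      have h6 : s.C = s.A / (l + s.θ) - s.B / (k + s.φ) - (next s l k).C := by
        show s.C = s.A / (l + s.θ) - s.B / (k + s.φ) - (s.A / (l + s.θ) - s.B / (k + s.φ) - s.C)
        ring
      rw [h6]
      exact F.sub_mem (F.sub_mem (F.div_mem hFA hlF) (F.div_mem hFB hkF)) h5
  rcases h2 with ⟨h2, h3⟩ | ⟨h2, h3⟩
  · obtain ⟨i, j, hi, hj, h4, h5⟩ := core V s.A s.θ s.B s.φ s.C hV hA hB h2 hθ0 hθ1 hφ0 hφ1 h1 h3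
      hFA hFθ hFB hFφ hFC
    exact ⟨i, j, hi, hj, hmain i j hi hj h4 h5⟩
  · have hFC' : -s.C ∉ F := by
      intro h
      apply hFC
      rw [← neg_neg s.C]
      exact F.neg_mem h
    obtain ⟨i, j, hi, hj, h4, h5⟩ := core V s.B s.φ s.A s.θ (-s.C) hV hB hA (by linarith) hφ0 hφ1
      hθ0 hθ1 (by rw [neg_sq, mul_comm s.B]; exact h1) h3 hFB hFφ hFA hFθ hFC'
    have h6 : s.B / (i + s.φ) - s.A / (j + s.θ) - -s.C =
        -(s.A / (j + s.θ) - s.B / (i + s.φ) - s.C) := by ring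
    rw [h6] at h4 h5
    refine ⟨j, i, hj, hi, hmain j i hj hi ?_ ?_⟩
    · rw [neg_sq, mul_comm (s.B / _)] at h4
      exact h4
    · rcases h5 with ⟨h5, h7⟩ | ⟨h5, h7⟩
      · right
        exact ⟨by show s.A / (j + s.θ) - s.B / (i + s.φ) - s.C < 0; linarith, h7⟩
      · left
        rw [neg_neg] at h7
        exact ⟨by show 0 < s.A / (j + s.θ) - s.B / (i + s.φ) - s.C; linarith, h7⟩

lemma u_cons {θ : ℝ} (hθ : 0 ≤ θ) {l : ℕ} (hl : 1 ≤ l) {w : ℝ} (hw : 0 ≤ w) :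
    1 / ((l : ℝ) + w) / (1 + θ * (1 / ((l : ℝ) + w))) =
      1 / (l + θ) - (1 / (l + θ) ^ 2) * (w / (1 + 1 / (l + θ) * w)) := by
  have hl' : (1 : ℝ) ≤ l := by exact_mod_cast hl
  have h1 : (l : ℝ) + w ≠ 0 := by positivity
  have h2 : (l : ℝ) + θ ≠ 0 := by positivity
  have h3 : (l : ℝ) + w + θ ≠ 0 := by positivity
  have h4 : 1 + θ * (1 / ((l : ℝ) + w)) ≠ 0 := by positivity
  have h5 : 1 + 1 / ((l : ℝ) + θ) * w ≠ 0 := by positivity
  have h6 : 1 / ((l : ℝ) + w) / (1 + θ * (1 / ((l : ℝ) + w))) = 1 / (l + w + θ) := by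
    field_simp
  have h7 : w / (1 + 1 / ((l : ℝ) + θ) * w) = w * (l + θ) / (l + w + θ) := by
    rw [div_eq_div_iff h5 h3]
    field_simp
    ring
  rw [h6, h7]
  field_simp
  ring

lemma rel_next {s : St} (hθ : 0 ≤ s.θ) (hφ : 0 ≤ s.φ) {l k : ℕ} (hl : 1 ≤ l) (hk : 1 ≤ k)
    {w z : ℝ} (hw : 0 ≤ w) (hz : 0 ≤ z) (h : Rel (next s l k) w z) :
    Rel s (1 / (l + w)) (1 / (k + z)) := by
  unfold Rel at h ⊢
  rw [u_cons hθ hl hw, u_cons hφ hk hz]
  have h1 : s.A / (l + s.θ) ^ 2 * (w / (1 + 1 / (l + s.θ) * w)) -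
    s.B / (k + s.φ) ^ 2 * (z / (1 + 1 / (k + s.φ) * z)) =
    s.A / (l + s.θ) - s.B / (k + s.φ) - s.C := h
  linear_combination -h1

lemma base_aux {A θ C V : ℝ} (hA : 0 < A) (hθ0 : 0 ≤ θ) (hθ1 : θ ≤ 1) (hC : 0 < C) (hV : 16 ≤ V)
    (h : C * V ≤ 4 * A) : ∃ w : ℝ, 0 ≤ w ∧ w ≤ 1 ∧ A * (w / (1 + θ * w)) = C := by
  have h1 : C * 4 ≤ A := by nlinarith
  have h2 : 0 < A - θ * C := by nlinarith
  refine ⟨C / (A - θ * C), by positivity, ?_, ?_⟩
  · rw [div_le_one h2]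
    nlinarith
  · have h3 : 1 + θ * (C / (A - θ * C)) = A / (A - θ * C) := by
      field_simp
      ring
    rw [h3, div_div_div_cancel_right₀ h2.ne']
    field_simp

lemma rel_base (V : ℝ) (hV : 16 ≤ V) (s : St) (hs : Valid V s) :
    ∃ w z : ℝ, 0 ≤ w ∧ w ≤ 1 ∧ 0 ≤ z ∧ z ≤ 1 ∧ Rel s w z := by
  obtain ⟨hA, hB, hθ0, hθ1, hφ0, hφ1, h1, h2, -⟩ := hs
  rcases h2 with ⟨h2, h3⟩ | ⟨h2, h3⟩
  · obtain ⟨w, hw0, hw1, hw⟩ := base_aux hA hθ0 hθ1 h2 hV h3
    refine ⟨w, 0, hw0, hw1, le_refl _, zero_le_one, ?_⟩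
    unfold Rel
    rw [hw]
    simp
  · obtain ⟨z, hz0, hz1, hz⟩ := base_aux hB hφ0 hφ1 (by linarith : 0 < -s.C) hV h3
    refine ⟨0, z, le_refl _, zero_le_one, hz0, hz1, ?_⟩
    unfold Rel
    rw [hz]
    simp

end Pool.Agent.V11292.G
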